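import Mathlib

/-!
# The polymatroid bound for circular graphs

`f` is a monotone submodular function on the subsets of `ℤ/p` that grows by at least `d` when a
point at circular distance at least `q` from all points of the set is added. Then
`p d ≤ q f(ℤ/p)`.
-/

set_option autoImplicit false

namespace Pool.Agent.helper67.KP

open Finset

/-- the arc of length `l` that begins at `a` -/
def arc {p : ℕ} (a : ZMod p) (l : ℕ) : Finset (ZMod p) := (range l).image fun i : ℕ => a + (i : ZMod p)

theorem mem_arc {p : ℕ} (a : ZMod p) (l : ℕ) (x : ZMod p) :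
    x ∈ arc a l ↔ ∃ i : ℕ, i < l ∧ a + (i : ZMod p) = x := by
  unfold arc
  simp only [mem_image, mem_range]

theorem arc_zero {p : ℕ} (a : ZMod p) : arc a 0 = ∅ := by
  unfold arc
  simp

theorem arc_mono {p : ℕ} (a : ZMod p) {k l : ℕ} (h : k ≤ l) : arc a k ⊆ arc a l := by
  intro x hx
  rw [mem_arc] at hx ⊢
  obtain ⟨i, hi, rfl⟩ := hx
  exact ⟨i, lt_of_lt_of_le hi h, rfl⟩

theorem arc_union {p : ℕ} (a : ZMod p) (l : ℕ) : arc a (l + 2) ⊆ arc a (l + 1) ∪ arc (a + 1) (l + 1) := by
  intro x hx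
  rw [mem_arc] at hx
  obtain ⟨i, hi, rfl⟩ := hx
  rw [mem_union]
  rcases Nat.lt_or_ge i (l + 1) with h | h
  · left
    rw [mem_arc]
    exact ⟨i, h, rfl⟩
  · right
    rw [mem_arc]
    refine ⟨l, by omega, ?_⟩
    have : i = l + 1 := by omega
    subst this
    push_cast
    ring

theorem arc_inter {p : ℕ} (a : ZMod p) (l : ℕ) : arc (a + 1) l ⊆ arc a (l + 1) ∩ arc (a + 1) (l + 1) := by
  intro x hx
  rw [mem_inter]
  refine ⟨?_, arc_mono (a + 1) (Nat.le_succ l) hx⟩
  rw [mem_arc] at hx ⊢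
  obtain ⟨i, hi, rfl⟩ := hx
  refine ⟨i + 1, by omega, ?_⟩
  push_cast
  ring

/-- concave sequences -/
theorem concave_bound (R : ℕ → ℝ) (D : ℝ) (q m : ℕ) (hq : 1 ≤ q) (hR : ∀ j, R (j + 2) + R j ≤ 2 * R (j + 1))
    (h1 : D ≤ R 1) (hs : ∀ l, l ≤ m → R l + D ≤ R (l + q)) (k : ℕ) (hk : 1 ≤ k) (hkm : k ≤ m) :
    ((q : ℝ) + k - 1) * D ≤ q * R k := by
  have hanti : ∀ i l : ℕ, R (l + i + 1) - R (l + i) ≤ R (l + 1) - R l := by
    intro i
    induction i with
    | zero => intro l; simp
    | succ i ih =>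
      intro l
      have h2 := hR (l + i)
      have h3 := ih l
      have e1 : l + (i + 1) + 1 = l + i + 2 := by ring
      have e2 : l + (i + 1) = l + i + 1 := by ring
      rw [e1, e2]
      linarith
  have hsum : ∀ i l : ℕ, R (l + i) - R l ≤ i * (R (l + 1) - R l) := by
    intro i
    induction i with
    | zero => intro l; simp
    | succ i ih =>
      intro l
      have h2 := hanti i l
      have h3 := ih l
      have e1 : l + (i + 1) = l + i + 1 := by ring
      rw [e1]
      push_cast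
      linarith
  have hstep : ∀ l : ℕ, l ≤ m → D ≤ q * (R (l + 1) - R l) := by
    intro l hl
    have h2 := hsum q l
    have h3 := hs l hl
    linarith
  induction k with
  | zero => omega
  | succ k ih =>
    rcases Nat.eq_zero_or_pos k with h0 | h0
    · subst h0
      have hq' : (0 : ℝ) ≤ q := by positivity
      have := mul_le_mul_of_nonneg_left h1 hq'
      push_cast
      have e : ((q : ℝ) + 1 - 1) * D = q * D := by ring
      rw [e]
      exact this
    · have h2 := ih h0 (by omega)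
      have h3 := hstep k (by omega)
      push_cast
      nlinarith

variable {p : ℕ} [NeZero p]

theorem sum_shift (f : ZMod p → ℝ) : ∑ a : ZMod p, f (a + 1) = ∑ a : ZMod p, f a :=
  Equiv.sum_comp (Equiv.addRight (1 : ZMod p)) f

/-- the polymatroid bound -/
theorem arc_bound (q : ℕ) (hq : 1 ≤ q) (hpq : 2 * q ≤ p) (d : ℝ) (f : Finset (ZMod p) → ℝ)
    (h0 : f ∅ = 0) (hmono : ∀ X Y, X ⊆ Y → f X ≤ f Y)
    (hsub : ∀ X Y, f (X ∪ Y) + f (X ∩ Y) ≤ f X + f Y)
    (hdec : ∀ (X : Finset (ZMod p)) (b : ZMod p), (∀ a ∈ X, q ≤ (b - a).val ∧ (b - a).val + q ≤ p) →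
      f X + d ≤ f (insert b X)) :
    (p : ℝ) * d ≤ q * f univ := by
  have hp : 0 < p := by omega
  have hpR : (0 : ℝ) < p := by exact_mod_cast hp
  set R : ℕ → ℝ := fun l => ∑ a : ZMod p, f (arc a l) with hRdef
  have hR0 : R 0 = 0 := by
    simp only [hRdef, arc_zero, h0, sum_const_zero]
  have hconc : ∀ j, R (j + 2) + R j ≤ 2 * R (j + 1) := by
    intro j
    have h1 : ∀ a : ZMod p, f (arc a (j + 2)) + f (arc (a + 1) j) ≤ f (arc a (j + 1)) + f (arc (a + 1) (j + 1)) := by
      intro a
      have h2 := hmono _ _ (arc_union a j)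
      have h3 := hmono _ _ (arc_inter a j)
      have h4 := hsub (arc a (j + 1)) (arc (a + 1) (j + 1))
      linarith
    have h5 := Finset.sum_le_sum (fun a (_ : a ∈ (univ : Finset (ZMod p))) => h1 a)
    rw [sum_add_distrib, sum_add_distrib, sum_shift (fun a => f (arc a j)),
      sum_shift (fun a => f (arc a (j + 1)))] at h5
    simp only [hRdef]
    linarith
  have hstep1 : ∀ (a : ZMod p) (l : ℕ), l + 2 * q ≤ p + 1 → f (arc a l) + d ≤ f (arc a (l + q)) := by
    intro a l hl
    have h1 : insert (a + ((l + q - 1 : ℕ) : ZMod p)) (arc a l) ⊆ arc a (l + q) := by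
      intro x hx
      rw [mem_insert] at hx
      rcases hx with rfl | hx
      · rw [mem_arc]
        exact ⟨l + q - 1, by omega, rfl⟩
      · exact arc_mono a (Nat.le_add_right l q) hx
    refine le_trans (hdec (arc a l) (a + ((l + q - 1 : ℕ) : ZMod p)) ?_) (hmono _ _ h1)
    intro x hx
    rw [mem_arc] at hx
    obtain ⟨i, hi, rfl⟩ := hx
    have h2 : a + ((l + q - 1 : ℕ) : ZMod p) - (a + (i : ZMod p)) = ((l + q - 1 - i : ℕ) : ZMod p) := by
      rw [Nat.cast_sub (by omega : i ≤ l + q - 1)]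
      ring
    rw [h2, ZMod.val_natCast_of_lt (by omega)]
    omega
  have hcard : ∑ _a : ZMod p, d = p * d := by
    rw [sum_const, card_univ, ZMod.card, nsmul_eq_mul]
  have hstep : ∀ l, l ≤ p + 1 - 2 * q → R l + p * d ≤ R (l + q) := by
    intro l hl
    have h1 := Finset.sum_le_sum (fun a (_ : a ∈ (univ : Finset (ZMod p))) => hstep1 a l (by omega))
    rw [sum_add_distrib, hcard] at h1
    exact h1
  have hR1 : (p : ℝ) * d ≤ R 1 := by
    have h1 : ∀ a : ZMod p, d ≤ f (arc a 1) := by
      intro a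
      have h2 := hdec ∅ a (fun x hx => absurd hx (notMem_empty x))
      rw [h0, zero_add] at h2
      refine le_trans h2 (hmono _ _ ?_)
      intro x hx
      rw [mem_insert] at hx
      rcases hx with rfl | hx
      · rw [mem_arc]
        exact ⟨0, by omega, by simp⟩
      · exact absurd hx (notMem_empty x)
    have h3 := Finset.sum_le_sum (fun a (_ : a ∈ (univ : Finset (ZMod p))) => h1 a)
    rw [hcard] at h3
    exact h3
  have hm := concave_bound R (p * d) q (p + 1 - 2 * q) hq hconc hR1 hstep (p + 1 - 2 * q) (by omega) le_rfl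
  have hlast : R (p + 1 - 2 * q) + p * d ≤ p * f univ := by
    have h1 : ∀ a : ZMod p, f (arc a (p + 1 - 2 * q)) + d ≤ f univ := by
      intro a
      exact le_trans (hstep1 a (p + 1 - 2 * q) (by omega)) (hmono _ _ (subset_univ _))
    have h2 := Finset.sum_le_sum (fun a (_ : a ∈ (univ : Finset (ZMod p))) => h1 a)
    rw [sum_add_distrib, hcard, sum_const, card_univ, ZMod.card, nsmul_eq_mul] at h2
    exact h2
  have hcast : ((p + 1 - 2 * q : ℕ) : ℝ) = p + 1 - 2 * q := by
    rw [Nat.cast_sub (by omega)]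
    push_cast
    ring
  rw [hcast] at hm
  have hqR : (0 : ℝ) ≤ q := by positivity
  have h6 := mul_le_mul_of_nonneg_left hlast hqR
  have h7 : (p : ℝ) * ((p : ℝ) * d) ≤ p * (q * f univ) := by nlinarith
  exact le_of_mul_le_mul_left h7 hpR

end Pool.Agent.helper67.KP
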