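import Pool.Agent.helper67.KN.Basic

/-!
# Spectral points of rank type and the fractional Haemers bound: definitions

`IsSpectralPoint` and `KC p q` (the complement of the Kneser graph) are in
`Pool.Agent.helper67.KN.Basic`.
-/

set_option autoImplicit false

namespace Pool.Agent.helper67.KP

open Finset

universe u

/-- `f` is a rank type function for the graph `G` with unit `d`: a monotone submodular function on
the sets of vertices which grows by at least `d` when a vertex is added that is different from and
not adjacent to all vertices of the set. -/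
structure RankType {V : Type} [DecidableEq V] (G : SimpleGraph V) (d : ℝ) (f : Finset V → ℝ) : Prop where
  zero : f ∅ = 0
  mono : ∀ X Y, X ⊆ Y → f X ≤ f Y
  sub : ∀ X Y, f (X ∪ Y) + f (X ∩ Y) ≤ f X + f Y
  grow : ∀ (X : Finset V) (v : V), (∀ u ∈ X, u ≠ v ∧ ¬ G.Adj u v) → f X + d ≤ f (insert v X)

/-- A graph invariant is of rank type if its value at each graph is approximated from above by
`f(V) / d`, where `d > 0` and `f` is a rank type function with unit `d`. -/
def IsRankType (φ : (V : Type) → [Fintype V] → SimpleGraph V → ℝ) : Prop :=
  ∀ (V : Type) [Fintype V] [DecidableEq V] (G : SimpleGraph V) (ε : ℝ), 0 < ε →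
    ∃ (d : ℝ) (f : Finset V → ℝ), 0 < d ∧ RankType G d f ∧ f univ ≤ (φ V G + ε) * d

/-- `M` is a `d`-representation of the graph `G` over `F`: its `d × d` diagonal blocks are identity
matrices and the blocks of different nonadjacent vertices vanish. -/
structure IsRep {F : Type u} [Field F] {V : Type} (G : SimpleGraph V) (d : ℕ)
    (M : Matrix (V × Fin d) (V × Fin d) F) : Prop where
  diag : ∀ (v : V) (i j : Fin d), M (v, i) (v, j) = if i = j then 1 else 0
  off : ∀ (u v : V) (i j : Fin d), u ≠ v → ¬ G.Adj u v → M (u, i) (v, j) = 0

/-- the numbers `rank M / d`, `M` a `d`-representation of `G` over `F`, `d ≥ 1` -/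
def haemersValues (F : Type u) [Field F] {V : Type} [Fintype V] (G : SimpleGraph V) : Set ℝ :=
  {x | ∃ d : ℕ, 1 ≤ d ∧ ∃ M : Matrix (V × Fin d) (V × Fin d) F, IsRep G d M ∧ x = (M.rank : ℝ) / d}

/-- the fractional Haemers bound over the field `F` -/
noncomputable def HF (F : Type u) [Field F] (V : Type) [Fintype V] (G : SimpleGraph V) : ℝ :=
  sInf (haemersValues F G)

end Pool.Agent.helper67.KP
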