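import Pool.Agent.helper67.KP.Mul

/-!
# The fractional Haemers bound is a spectral point; rank type spectral points are normalised
-/

set_option autoImplicit false

namespace Pool.Agent.helper67.KP

open Finset Pool.Agent.helper67.KN

universe u

theorem HF_add_ge (F : Type u) [Field F] (V W : Type) [Fintype V] [Fintype W] (G : SimpleGraph V)
    (H : SimpleGraph W) :
    HF F V G + HF F W H ≤ HF F (V ⊕ W) (SimpleGraph.fromRel (Sum.LiftRel G.Adj H.Adj)) := by
  classical
  refine le_csInf values_nonempty ?_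
  rintro t ⟨d, hd, M, hM, rfl⟩
  have hdR : (0 : ℝ) < d := by exact_mod_cast hd
  obtain ⟨x, y, hxy, hS⟩ := rep_Sch M hM
  set M1 : Matrix (V × Fin d) (V × Fin d) F :=
    Matrix.of (fun a b => M (Sum.inl a.1, a.2) (Sum.inl b.1, b.2)) with hM1
  set M2 : Matrix (W × Fin d) (W × Fin d) F :=
    Matrix.of (fun a b => M (Sum.inr a.1, a.2) (Sum.inr b.1, b.2)) with hM2
  have hrep1 : IsRep G d M1 := by
    refine ⟨fun v i j => hM.diag (Sum.inl v) i j, fun u v i j huv hadj => ?_⟩
    refine hM.off (Sum.inl u) (Sum.inl v) i j (fun h' => huv (Sum.inl_injective h')) ?_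
    rw [sum_adj]
    intro h1
    cases h1 with
    | inl h2 => exact hadj h2
  have hrep2 : IsRep H d M2 := by
    refine ⟨fun v i j => hM.diag (Sum.inr v) i j, fun u v i j huv hadj => ?_⟩
    refine hM.off (Sum.inr u) (Sum.inr v) i j (fun h' => huv (Sum.inr_injective h')) ?_
    rw [sum_adj]
    intro h1
    cases h1 with
    | inr h2 => exact hadj h2
  obtain ⟨P1, Q1, h1⟩ := rank_cut M1 M1.rank le_rfl
  obtain ⟨P2, Q2, h2⟩ := rank_cut M2 M2.rank le_rfl
  set A1 : Matrix (V × Fin d) (Fin M.rank) F := Matrix.of (fun a k => x (Sum.inl a.1) a.2 k) with hA1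
  set B1 : Matrix (Fin M.rank) (V × Fin d) F := Matrix.of (fun k a => y (Sum.inl a.1) k a.2) with hB1
  set A2 : Matrix (W × Fin d) (Fin M.rank) F := Matrix.of (fun a k => x (Sum.inr a.1) a.2 k) with hA2
  set B2 : Matrix (Fin M.rank) (W × Fin d) F := Matrix.of (fun k a => y (Sum.inr a.1) k a.2) with hB2
  have e11 : A1 * B1 = M1 := by
    ext a b
    have h3 := congrFun (congrFun (hxy (Sum.inl a.1) (Sum.inl b.1)) a.2) b.2
    rw [Matrix.mul_apply] at h3
    rw [Matrix.mul_apply]
    exact h3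
  have e22 : A2 * B2 = M2 := by
    ext a b
    have h3 := congrFun (congrFun (hxy (Sum.inr a.1) (Sum.inr b.1)) a.2) b.2
    rw [Matrix.mul_apply] at h3
    rw [Matrix.mul_apply]
    exact h3
  have e12 : A1 * B2 = 0 := by
    ext a b
    have h3 := congrFun (congrFun (hxy (Sum.inl a.1) (Sum.inr b.1)) a.2) b.2
    rw [Matrix.mul_apply] at h3
    rw [Matrix.mul_apply]
    refine h3.trans ?_
    rw [Matrix.of_apply]
    refine hM.off _ _ _ _ (fun h' => nomatch h') ?_
    rw [sum_adj]
    intro h4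
    cases h4
  have e21 : A2 * B1 = 0 := by
    ext a b
    have h3 := congrFun (congrFun (hxy (Sum.inr a.1) (Sum.inl b.1)) a.2) b.2
    rw [Matrix.mul_apply] at h3
    rw [Matrix.mul_apply]
    refine h3.trans ?_
    rw [Matrix.of_apply]
    refine hM.off _ _ _ _ (fun h' => nomatch h') ?_
    rw [sum_adj]
    intro h4
    cases h4
  have hprod : Matrix.fromRows (P1 * A1) (P2 * A2) * Matrix.fromCols (B1 * Q1) (B2 * Q2) = 1 := by
    rw [Matrix.fromRows_mul_fromCols]
    have f11 : P1 * A1 * (B1 * Q1) = 1 := by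
      rw [Matrix.mul_assoc, ← Matrix.mul_assoc A1, ← Matrix.mul_assoc P1, e11]
      exact h1
    have f22 : P2 * A2 * (B2 * Q2) = 1 := by
      rw [Matrix.mul_assoc, ← Matrix.mul_assoc A2, ← Matrix.mul_assoc P2, e22]
      exact h2
    have f12 : P1 * A1 * (B2 * Q2) = 0 := by
      rw [Matrix.mul_assoc, ← Matrix.mul_assoc A1, e12, Matrix.zero_mul, Matrix.mul_zero]
    have f21 : P2 * A2 * (B1 * Q1) = 0 := by
      rw [Matrix.mul_assoc, ← Matrix.mul_assoc A2, e21, Matrix.zero_mul, Matrix.mul_zero]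
    rw [f11, f22, f12, f21]
    exact Matrix.fromBlocks_one
  have hrank : M1.rank + M2.rank ≤ M.rank := by
    have h3 := congrArg Matrix.rank hprod
    rw [Matrix.rank_one, Fintype.card_sum, Fintype.card_fin, Fintype.card_fin] at h3
    rw [← h3]
    refine le_trans (Matrix.rank_mul_le_left _ _) (le_trans (Matrix.rank_le_card_width _) ?_)
    rw [Fintype.card_fin]
  have g1 := HF_le (⟨d, hd, M1, hrep1, rfl⟩ : (M1.rank : ℝ) / d ∈ haemersValues F G)
  have g2 := HF_le (⟨d, hd, M2, hrep2, rfl⟩ : (M2.rank : ℝ) / d ∈ haemersValues F H)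
  refine le_trans (add_le_add g1 g2) ?_
  rw [← add_div, div_le_div_iff_of_pos_right hdR]
  exact_mod_cast hrank

/-- the theorem of Bukh and Cox: the fractional Haemers bound is a spectral point -/
theorem HF_spectral (F : Type u) [Field F] : IsSpectralPoint (fun V _ G => HF F V G) where
  nonneg := fun V _ G => HF_nonneg F V G
  mono := fun V W _ _ G H h => HF_mono F V W G H h
  add := fun V W _ _ G H => le_antisymm (HF_add_le F V W G H) (HF_add_ge F V W G H)
  mul := fun V W _ _ G H => le_antisymm (HF_mul_le F V W G H) (HF_mul_ge F V W G H)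
  one := HF_one F

theorem HF_rankType (F : Type u) [Field F] : IsRankType (fun V _ G => HF F V G) := by
  intro V _ _ G ε hε
  obtain ⟨t, ht, hlt⟩ := Real.lt_sInf_add_pos (values_nonempty (F := F) (G := G)) hε
  obtain ⟨d, hd, M, hM, rfl⟩ := ht
  have hdR : (0 : ℝ) < d := by exact_mod_cast hd
  refine ⟨d, _, hdR, rep_rankType G M hM, ?_⟩
  have h1 := hlt.le
  rw [div_le_iff₀ hdR] at h1
  have h2 : ((Module.finrank F (colSpan M univ) : ℕ) : ℝ) = M.rank := by
    exact_mod_cast rank_eq M
  show ((Module.finrank F (colSpan M univ) : ℕ) : ℝ) ≤ _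
  rw [h2]
  exact h1

theorem normalised_of_rankType (φ : (V : Type) → [Fintype V] → SimpleGraph V → ℝ) (hφ : IsSpectralPoint φ)
    (hr : IsRankType φ) (p q : ℕ) (hq : 1 ≤ q) (hpq : 2 * q ≤ p) : φ _ (KC p q) = (p : ℝ) / q := by
  classical
  refine le_antisymm (upper hφ p q hq (by omega)) ?_
  refine le_of_forall_pos_le_add (fun ε hε => ?_)
  obtain ⟨d, f, hd, hf, hle⟩ := hr _ (KC p q) ε hε
  have h1 := rank_bound p q hq hpq d f hf
  exact le_of_mul_le_mul_right (le_trans h1 hle) hd

end Pool.Agent.helper67.KP
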