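import Pool.Agent.helper67.KP.Main
import Pool.Agent.helper67.KN.Upper

/-!
# The fractional Haemers bound
-/

set_option autoImplicit false

namespace Pool.Agent.helper67.KP

open Finset Pool.Agent.helper67.KN

universe u

/-- the span of the columns of the vertices in `X` -/
def colSpan {F : Type u} [Field F] {V : Type} {d : ℕ} (M : Matrix (V × Fin d) (V × Fin d) F) (X : Finset V) :
    Submodule F (V × Fin d → F) :=
  Submodule.span F (M.col '' {a | a.1 ∈ X})

theorem colSpan_mono {F : Type u} [Field F] {V : Type} {d : ℕ} (M : Matrix (V × Fin d) (V × Fin d) F)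
    (X Y : Finset V) (h : X ⊆ Y) : colSpan M X ≤ colSpan M Y := by
  refine Submodule.span_mono (Set.image_mono ?_)
  intro a ha
  exact h ha

theorem colSpan_union {F : Type u} [Field F] {V : Type} [DecidableEq V] {d : ℕ}
    (M : Matrix (V × Fin d) (V × Fin d) F)
    (X Y : Finset V) : colSpan M (X ∪ Y) = colSpan M X ⊔ colSpan M Y := by
  unfold colSpan
  rw [← Submodule.span_union, ← Set.image_union]
  congr 2
  ext a
  simp only [Set.mem_ofPred_eq, mem_union, Set.mem_union]

theorem colSpan_grow {F : Type u} [Field F] {V : Type} [Fintype V] [DecidableEq V] {d : ℕ}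
    (G : SimpleGraph V) (M : Matrix (V × Fin d) (V × Fin d) F) (hM : IsRep G d M)
    (X : Finset V) (v : V) (h : ∀ u ∈ X, u ≠ v ∧ ¬ G.Adj u v) :
    Module.finrank F (colSpan M X) + d ≤ Module.finrank F (colSpan M (insert v X)) := by
  set W := colSpan M (insert v X) with hW
  set π : (V × Fin d → F) →ₗ[F] (Fin d → F) := LinearMap.funLeft F F (fun i : Fin d => (v, i)) with hπ
  have hle : colSpan M X ≤ W := colSpan_mono M X (insert v X) (subset_insert v X)
  have hker : ∀ x ∈ colSpan M X, π x = 0 := by
    intro x hx
    have h1 : colSpan M X ≤ LinearMap.ker π := by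
      unfold colSpan
      rw [Submodule.span_le]
      rintro _ ⟨⟨u, j⟩, hu, rfl⟩
      have hu' : u ∈ X := hu
      show π (M.col (u, j)) = 0
      funext i
      show M (v, i) (u, j) = 0
      exact hM.off v u i j (h u hu').1.symm (fun h' => (h u hu').2 h'.symm)
    exact h1 hx
  have hsurj : LinearMap.range (π.domRestrict W) = ⊤ := by
    rw [LinearMap.range_eq_top]
    intro y
    have hmem : ∀ j : Fin d, M.col (v, j) ∈ W := by
      intro j
      refine Submodule.subset_span ⟨(v, j), ?_, rfl⟩
      exact mem_insert_self v X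
    refine ⟨∑ j : Fin d, y j • (⟨M.col (v, j), hmem j⟩ : W), ?_⟩
    rw [map_sum]
    funext i
    rw [Finset.sum_apply]
    have h2 : ∀ j : Fin d, (π.domRestrict W) (y j • (⟨M.col (v, j), hmem j⟩ : W)) i = if i = j then y j else 0 := by
      intro j
      rw [map_smul]
      show y j * M (v, i) (v, j) = _
      rw [hM.diag]
      split_ifs <;> simp
    rw [Finset.sum_congr rfl (fun j _ => h2 j)]
    simp
  have h3 := LinearMap.finrank_range_add_finrank_ker (π.domRestrict W)
  rw [hsurj, finrank_top, Module.finrank_fin_fun] at h3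
  have h4 : Module.finrank F (colSpan M X) ≤ Module.finrank F (LinearMap.ker (π.domRestrict W)) := by
    have h5 : ∀ x : colSpan M X, Submodule.inclusion hle x ∈ LinearMap.ker (π.domRestrict W) := by
      intro x
      rw [LinearMap.mem_ker]
      exact hker x.1 x.2
    refine LinearMap.finrank_le_finrank_of_injective
      (f := (Submodule.inclusion hle).codRestrict (LinearMap.ker (π.domRestrict W)) h5) ?_
    intro x y hxy
    have h6 := congrArg Subtype.val hxy
    exact Submodule.inclusion_injective hle h6
  omega

theorem rep_rankType {F : Type u} [Field F] {V : Type} [Fintype V] [DecidableEq V] {d : ℕ}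
    (G : SimpleGraph V) (M : Matrix (V × Fin d) (V × Fin d) F) (hM : IsRep G d M) :
    RankType G (d : ℝ) (fun X => (Module.finrank F (colSpan M X) : ℝ)) where
  zero := by
    have : colSpan M (∅ : Finset V) = ⊥ := by
      unfold colSpan
      have : {a : V × Fin d | a.1 ∈ (∅ : Finset V)} = ∅ := by
        ext a
        simp
      rw [this, Set.image_empty, Submodule.span_empty]
    rw [this, finrank_bot]
    simp
  mono := by
    intro X Y h
    have := Submodule.finrank_mono (colSpan_mono M X Y h)
    exact_mod_cast this
  sub := by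
    intro X Y
    have h1 := Submodule.finrank_sup_add_finrank_inf_eq (colSpan M X) (colSpan M Y)
    rw [← colSpan_union] at h1
    have h2 : colSpan M (X ∩ Y) ≤ colSpan M X ⊓ colSpan M Y :=
      le_inf (colSpan_mono M _ _ inter_subset_left) (colSpan_mono M _ _ inter_subset_right)
    have h3 := Submodule.finrank_mono h2
    have h4 : Module.finrank F (colSpan M (X ∪ Y)) + Module.finrank F (colSpan M (X ∩ Y)) ≤
        Module.finrank F (colSpan M X) + Module.finrank F (colSpan M Y) := by omega
    exact_mod_cast h4
  grow := by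
    intro X v h
    have := colSpan_grow G M hM X v h
    exact_mod_cast this

theorem rank_eq {F : Type u} [Field F] {V : Type} [Fintype V] {d : ℕ}
    (M : Matrix (V × Fin d) (V × Fin d) F) : Module.finrank F (colSpan M univ) = M.rank := by
  rw [Matrix.rank_eq_finrank_span_cols]
  have : M.col '' {a : V × Fin d | a.1 ∈ (univ : Finset V)} = Set.range M.col := by
    rw [← Set.image_univ]
    congr 1
    ext a
    simp
  unfold colSpan
  rw [this]

/-- lower bound -/
theorem haemers_lower (F : Type u) [Field F] (p q : ℕ) (hq : 1 ≤ q) (hpq : 2 * q ≤ p) (x : ℝ)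
    (hx : x ∈ haemersValues F (KC p q)) : (p : ℝ) / q ≤ x := by
  classical
  obtain ⟨d, hd, M, hM, rfl⟩ := hx
  have h := rank_bound p q hq hpq d _ (rep_rankType (KC p q) M hM)
  have hdR : (0 : ℝ) < d := by exact_mod_cast hd
  rw [le_div_iff₀ hdR]
  have h2 : ((Module.finrank F (colSpan M univ) : ℕ) : ℝ) = M.rank := by
    exact_mod_cast rank_eq M
  rw [← h2]
  exact h

/-- the representation with the factor `p` -/
theorem haemers_attained (F : Type u) [Field F] (p q : ℕ) (hq : 1 ≤ q) (hpq : 2 * q ≤ p) :
    (p : ℝ) / q ∈ haemersValues F (KC p q) := by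
  classical
  set e : {s : Finset (Fin p) // s.card = q} → Fin q → Fin p := fun S i => S.1.orderEmbOfFin S.2 i with he
  have hinj : ∀ S i j, e S i = e S j → i = j := by
    intro S i j h
    exact (S.1.orderEmbOfFin S.2).injective h
  have hmem : ∀ S i, e S i ∈ S.1 := fun S i => S.1.orderEmbOfFin_mem S.2 i
  set N : Matrix (Fin p) ({s : Finset (Fin p) // s.card = q} × Fin q) F :=
    Matrix.of (fun x a => if e a.1 a.2 = x then 1 else 0) with hN
  have hent : ∀ a b, (N.transpose * N) a b = if e a.1 a.2 = e b.1 b.2 then 1 else 0 := by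
    intro a b
    rw [Matrix.mul_apply]
    simp only [Matrix.transpose_apply, hN, Matrix.of_apply]
    rw [Finset.sum_eq_single (e a.1 a.2)]
    · simp only [if_true, one_mul]
      by_cases h : e a.1 a.2 = e b.1 b.2
      · rw [if_pos h, if_pos h.symm]
      · rw [if_neg h, if_neg (fun h' => h h'.symm)]
    · intro x _ hx
      rw [if_neg (fun h' => hx h'.symm), zero_mul]
    · intro h
      exact absurd (mem_univ _) h
  have hrep : IsRep (KC p q) q (N.transpose * N) := by
    refine ⟨?_, ?_⟩
    · intro v i j
      rw [hent]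
      by_cases h : i = j
      · subst h
        simp
      · rw [if_neg h, if_neg (fun h' => h (hinj v i j h'))]
    · intro u v i j huv hadj
      rw [hent, if_neg]
      intro h
      have hd := KC_disj u v huv hadj
      rw [disjoint_left] at hd
      apply hd (hmem u i)
      have h' : e u i = e v j := h
      rw [h']
      exact hmem v j
  have hrank : (N.transpose * N).rank ≤ p := by
    refine le_trans (Matrix.rank_mul_le_right _ _) ?_
    refine le_trans (Matrix.rank_le_card_height N) ?_
    rw [Fintype.card_fin]
  have hlow := haemers_lower F p q hq hpq _ ⟨q, hq, N.transpose * N, hrep, rfl⟩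
  refine ⟨q, hq, N.transpose * N, hrep, le_antisymm hlow ?_⟩
  have hqR : (0 : ℝ) < q := by exact_mod_cast hq
  rw [div_le_div_iff_of_pos_right hqR]
  exact_mod_cast hrank

theorem haemers_isLeast (F : Type u) [Field F] (p q : ℕ) (hq : 1 ≤ q) (hpq : 2 * q ≤ p) :
    IsLeast (haemersValues F (KC p q)) ((p : ℝ) / q) :=
  ⟨haemers_attained F p q hq hpq, fun x hx => haemers_lower F p q hq hpq x hx⟩

end Pool.Agent.helper67.KP
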