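import Pool.Agent.helper67.KP.Arc
import Pool.Agent.helper67.KP.Defs

/-!
# Rank type bounds on the complements of the Kneser graphs
-/

set_option autoImplicit false

namespace Pool.Agent.helper67.KP

open Finset Pool.Agent.helper67.KN

theorem arc_card {p : ℕ} [NeZero p] (a : ZMod p) (q : ℕ) (h : q ≤ p) : (arc a q).card = q := by
  unfold arc
  rw [card_image_of_injOn, card_range]
  intro i hi j hj hij
  rw [coe_range, Set.mem_Iio] at hi hj
  have h1 : ((i : ℕ) : ZMod p) = (j : ZMod p) := add_left_cancel hij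
  have h2 := congrArg ZMod.val h1
  rw [ZMod.val_natCast_of_lt (by omega), ZMod.val_natCast_of_lt (by omega)] at h2
  exact h2

/-- the arcs as subsets of `Fin p` -/
def arcV {p : ℕ} [NeZero p] (q : ℕ) (h : q ≤ p) (a : ZMod p) : {s : Finset (Fin p) // s.card = q} :=
  ⟨(arc a q).map (ZMod.finEquiv p).symm.toEquiv.toEmbedding, by rw [card_map]; exact arc_card a q h⟩

theorem arc_disj {p : ℕ} [NeZero p] (q : ℕ) (a b : ZMod p) (h1 : q ≤ (b - a).val)
    (h2 : (b - a).val + q ≤ p) : Disjoint (arc a q) (arc b q) := by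
  rw [disjoint_left]
  intro x hx hy
  rw [mem_arc] at hx hy
  obtain ⟨j, hj, rfl⟩ := hx
  obtain ⟨i, hi, hij⟩ := hy
  have h3 : (((b - a).val + i : ℕ) : ZMod p) = ((j : ℕ) : ZMod p) := by
    push_cast
    rw [ZMod.natCast_zmod_val]
    have : b = a + (j : ZMod p) - (i : ZMod p) := by rw [← hij]; ring
    rw [this]
    ring
  have h4 := congrArg ZMod.val h3
  rw [ZMod.val_natCast_of_lt (by omega), ZMod.val_natCast_of_lt (by omega)] at h4
  omega

theorem arcV_disj {p : ℕ} [NeZero p] (q : ℕ) (h : q ≤ p) (a b : ZMod p) (h1 : q ≤ (b - a).val)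
    (h2 : (b - a).val + q ≤ p) : Disjoint (arcV q h a).1 (arcV q h b).1 := by
  unfold arcV
  rw [disjoint_map]
  exact arc_disj q a b h1 h2

theorem KC_not_adj {p q : ℕ} (hq : 1 ≤ q) (u v : {s : Finset (Fin p) // s.card = q}) (h : Disjoint u.1 v.1) :
    u ≠ v ∧ ¬ (KC p q).Adj u v := by
  have hne : u ≠ v := by
    intro e
    subst e
    rw [disjoint_self_iff_empty] at h
    have := u.2
    rw [h, card_empty] at this
    omega
  refine ⟨hne, ?_⟩
  intro h'
  unfold KC at h'
  rw [SimpleGraph.compl_adj, SimpleGraph.fromRel_adj] at h'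
  exact h'.2 ⟨hne, Or.inl h⟩

theorem KC_disj {p q : ℕ} (u v : {s : Finset (Fin p) // s.card = q}) (hne : u ≠ v)
    (h : ¬ (KC p q).Adj u v) : Disjoint u.1 v.1 := by
  unfold KC at h
  rw [SimpleGraph.compl_adj, SimpleGraph.fromRel_adj] at h
  by_contra hd
  apply h
  refine ⟨hne, ?_⟩
  rintro ⟨_, h1 | h1⟩
  · exact hd h1
  · exact hd h1.symm

/-- every rank type function for `KC p q` is at least `p d / q` on the set of all vertices -/
theorem rank_bound (p q : ℕ) (hq : 1 ≤ q) (hpq : 2 * q ≤ p) (d : ℝ)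
    (f : Finset {s : Finset (Fin p) // s.card = q} → ℝ) (hf : RankType (KC p q) d f) :
    (p : ℝ) / q * d ≤ f univ := by
  have hp : p ≠ 0 := by omega
  have : NeZero p := ⟨hp⟩
  have hqp : q ≤ p := by omega
  have hqR : (0 : ℝ) < q := by exact_mod_cast hq
  have h := arc_bound (p := p) q hq hpq d (fun X => f (X.image (arcV q hqp))) (by simpa using hf.zero)
    (fun X Y hXY => hf.mono _ _ (image_subset_image hXY)) ?_ ?_
  · have h2 := hf.mono ((univ : Finset (ZMod p)).image (arcV q hqp)) univ (subset_univ _)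
    rw [div_mul_eq_mul_div, div_le_iff₀ hqR]
    have h3 := mul_le_mul_of_nonneg_left h2 hqR.le
    linarith
  · intro X Y
    have h1 := hf.sub (X.image (arcV q hqp)) (Y.image (arcV q hqp))
    have h2 := hf.mono ((X ∩ Y).image (arcV q hqp)) (X.image (arcV q hqp) ∩ Y.image (arcV q hqp))
      (image_inter_subset _ _ _)
    rw [image_union]
    linarith
  · intro X b hX
    rw [image_insert]
    apply hf.grow
    intro u hu
    rw [mem_image] at hu
    obtain ⟨a, ha, rfl⟩ := hu
    obtain ⟨h1, h2⟩ := hX a ha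
    exact KC_not_adj hq _ _ (arcV_disj q hqp a b h1 h2)

end Pool.Agent.helper67.KP
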