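import Pool.Agent.helper67.KP.Spec

/-!
# Additivity and multiplicativity of the fractional Haemers bound
-/

set_option autoImplicit false

namespace Pool.Agent.helper67.KP

open Finset Pool.Agent.helper67.KN
open scoped Kronecker

universe u

theorem sum_adj {V W : Type} (G : SimpleGraph V) (H : SimpleGraph W) (a b : V ⊕ W) :
    (SimpleGraph.fromRel (Sum.LiftRel G.Adj H.Adj)).Adj a b ↔ Sum.LiftRel G.Adj H.Adj a b := by
  rw [SimpleGraph.fromRel_adj]
  constructor
  · rintro ⟨_, h | h⟩
    · exact h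
    · cases h with
      | inl h => exact Sum.LiftRel.inl h.symm
      | inr h => exact Sum.LiftRel.inr h.symm
  · intro h
    refine ⟨?_, Or.inl h⟩
    cases h with
    | inl h => exact fun e => h.ne (Sum.inl_injective e)
    | inr h => exact fun e => h.ne (Sum.inr_injective e)

/-- the sum of two factored representations -/
theorem Sch.add {F : Type u} [Field F] {V W : Type} {G : SimpleGraph V} {H : SimpleGraph W}
    {κ δ κ' δ' : Type} [Fintype κ] [Fintype δ] [DecidableEq δ] [Fintype κ'] [Fintype δ'] [DecidableEq δ']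
    {x : V → Matrix δ κ F} {y : V → Matrix κ δ F} {x' : W → Matrix δ' κ' F} {y' : W → Matrix κ' δ' F}
    (h : Sch F G κ δ x y) (h' : Sch F H κ' δ' x' y') :
    Sch F (SimpleGraph.fromRel (Sum.LiftRel G.Adj H.Adj)) ((κ × δ') ⊕ (δ × κ')) (δ × δ')
      (Sum.elim (fun u => Matrix.fromCols (x u ⊗ₖ (1 : Matrix δ' δ' F)) 0)
        (fun w => Matrix.fromCols 0 ((1 : Matrix δ δ F) ⊗ₖ x' w)))
      (Sum.elim (fun u => Matrix.fromRows (y u ⊗ₖ (1 : Matrix δ' δ' F)) 0)
        (fun w => Matrix.fromRows 0 ((1 : Matrix δ δ F) ⊗ₖ y' w))) := by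
  refine ⟨?_, ?_⟩
  · rintro (u | w)
    · simp only [Sum.elim_inl]
      rw [Matrix.fromCols_mul_fromRows, ← Matrix.mul_kronecker_mul, h.one, Matrix.one_mul,
        Matrix.one_kronecker_one, Matrix.zero_mul, add_zero]
    · simp only [Sum.elim_inr]
      rw [Matrix.fromCols_mul_fromRows, ← Matrix.mul_kronecker_mul, h'.one, Matrix.one_mul,
        Matrix.one_kronecker_one, Matrix.zero_mul, zero_add]
  · rintro (u | w) (v | z) huv hadj
    · simp only [Sum.elim_inl]
      have h1 : u ≠ v := fun e => huv (congrArg Sum.inl e)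
      have h2 : ¬ G.Adj u v := by
        intro h2
        exact hadj ((sum_adj G H _ _).mpr (Sum.LiftRel.inl h2))
      rw [Matrix.fromCols_mul_fromRows, ← Matrix.mul_kronecker_mul, h.zero u v h1 h2, Matrix.zero_kronecker,
        Matrix.zero_mul, add_zero]
    · simp only [Sum.elim_inl, Sum.elim_inr]
      rw [Matrix.fromCols_mul_fromRows, Matrix.mul_zero, Matrix.zero_mul, add_zero]
    · simp only [Sum.elim_inl, Sum.elim_inr]
      rw [Matrix.fromCols_mul_fromRows, Matrix.mul_zero, Matrix.zero_mul, add_zero]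
    · simp only [Sum.elim_inr]
      have h1 : w ≠ z := fun e => huv (congrArg Sum.inr e)
      have h2 : ¬ H.Adj w z := by
        intro h2
        exact hadj ((sum_adj G H _ _).mpr (Sum.LiftRel.inr h2))
      rw [Matrix.fromCols_mul_fromRows, ← Matrix.mul_kronecker_mul, h'.zero w z h1 h2, Matrix.kronecker_zero,
        Matrix.zero_mul, zero_add]

/-- the adjacency of the strong product -/
theorem prod_not_adj {V W : Type} (G : SimpleGraph V) (H : SimpleGraph W) (a b : V × W) (hab : a ≠ b)
    (h : ¬ (SimpleGraph.fromRel (fun x y : V × W =>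
      (x.1 = y.1 ∨ G.Adj x.1 y.1) ∧ (x.2 = y.2 ∨ H.Adj x.2 y.2))).Adj a b) :
    (a.1 ≠ b.1 ∧ ¬ G.Adj a.1 b.1) ∨ (a.2 ≠ b.2 ∧ ¬ H.Adj a.2 b.2) := by
  by_contra hc
  push Not at hc
  apply h
  rw [SimpleGraph.fromRel_adj]
  refine ⟨hab, Or.inl ⟨?_, ?_⟩⟩
  · by_cases h1 : a.1 = b.1
    · exact Or.inl h1
    · exact Or.inr (hc.1 h1)
  · by_cases h1 : a.2 = b.2
    · exact Or.inl h1
    · exact Or.inr (hc.2 h1)

/-- the product of two factored representations -/
theorem Sch.mul {F : Type u} [Field F] {V W : Type} {G : SimpleGraph V} {H : SimpleGraph W}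
    {κ δ κ' δ' : Type} [Fintype κ] [Fintype δ] [DecidableEq δ] [Fintype κ'] [Fintype δ'] [DecidableEq δ']
    {x : V → Matrix δ κ F} {y : V → Matrix κ δ F} {x' : W → Matrix δ' κ' F} {y' : W → Matrix κ' δ' F}
    (h : Sch F G κ δ x y) (h' : Sch F H κ' δ' x' y') :
    Sch F (SimpleGraph.fromRel (fun x y : V × W =>
      (x.1 = y.1 ∨ G.Adj x.1 y.1) ∧ (x.2 = y.2 ∨ H.Adj x.2 y.2))) (κ × κ') (δ × δ')
      (fun a => x a.1 ⊗ₖ x' a.2) (fun a => y a.1 ⊗ₖ y' a.2) := by
  refine ⟨?_, ?_⟩
  · intro a
    rw [← Matrix.mul_kronecker_mul, h.one, h'.one, Matrix.one_kronecker_one]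
  · intro a b hab hadj
    rw [← Matrix.mul_kronecker_mul]
    rcases prod_not_adj G H a b hab hadj with ⟨h1, h2⟩ | ⟨h1, h2⟩
    · rw [h.zero _ _ h1 h2, Matrix.zero_kronecker]
    · rw [h'.zero _ _ h1 h2, Matrix.kronecker_zero]

/-- a matrix of rank at least `c` has the identity of size `c` as a two-sided product -/
theorem rank_cut {F : Type u} [Field F] {ι ι' : Type} [Fintype ι] [Fintype ι'] [DecidableEq ι] [DecidableEq ι']
    (N : Matrix ι ι' F) (c : ℕ)
    (hc : c ≤ N.rank) : ∃ (P : Matrix (Fin c) ι F) (Q : Matrix ι' (Fin c) F), P * N * Q = 1 := by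
  have h1 : c ≤ Module.finrank F (LinearMap.range N.mulVecLin) := hc
  set U := LinearMap.range N.mulVecLin with hU
  set b := Module.finBasis F U with hb
  have hpre : ∀ k : Fin c, ∃ z : ι' → F, N.mulVecLin z = (b (Fin.castLE h1 k) : ι → F) := by
    intro k
    exact (b (Fin.castLE h1 k)).2
  choose z hz using hpre
  set Q : Matrix ι' (Fin c) F := Matrix.of (fun i k => z k i) with hQ
  have hli : LinearIndependent F (fun k : Fin c => (b (Fin.castLE h1 k) : ι → F)) := by
    have h2 : LinearIndependent F (fun k : Fin c => b (Fin.castLE h1 k)) :=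
      b.linearIndependent.comp _ (Fin.castLE_injective h1)
    exact h2.map' U.subtype (Submodule.ker_subtype U)
  have hcols : ∀ k : Fin c, (N * Q).mulVecLin (Pi.single k 1) = (b (Fin.castLE h1 k) : ι → F) := by
    intro k
    rw [Matrix.mulVecLin_apply, Matrix.mulVec_single_one, ← hz k, Matrix.mulVecLin_apply]
    rfl
  have hinj : Function.Injective (N * Q).mulVecLin := by
    rw [← LinearMap.ker_eq_bot, LinearMap.ker_eq_bot']
    intro v hv
    rw [Fintype.linearIndependent_iff] at hli
    have h3 : ∑ k, v k • (b (Fin.castLE h1 k) : ι → F) = 0 := by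
      rw [← hv]
      have h4 : v = ∑ k, v k • (Pi.single k 1 : Fin c → F) := by
        funext i
        rw [Finset.sum_apply]
        simp [Pi.single_apply]
      conv_rhs => rw [h4]
      rw [map_sum]
      refine Finset.sum_congr rfl (fun k _ => ?_)
      rw [map_smul, hcols]
    funext k
    exact hli v h3 k
  obtain ⟨g, hg⟩ := (N * Q).mulVecLin.exists_leftInverse_of_injective (LinearMap.ker_eq_bot.mpr hinj)
  refine ⟨LinearMap.toMatrix' g, Q, ?_⟩
  rw [Matrix.mul_assoc]
  have h5 : LinearMap.toMatrix' (g ∘ₗ (N * Q).mulVecLin) = LinearMap.toMatrix' g * (N * Q) := by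
    rw [LinearMap.toMatrix'_comp, ← Matrix.toLin'_apply', LinearMap.toMatrix'_toLin']
  rw [← h5, hg, LinearMap.toMatrix'_id]

/-- the strong product, lower bound -/
theorem HF_mul_ge (F : Type u) [Field F] (V W : Type) [Fintype V] [Fintype W] (G : SimpleGraph V)
    (H : SimpleGraph W) :
    HF F V G * HF F W H ≤ HF F (V × W) (SimpleGraph.fromRel (fun x y : V × W =>
      (x.1 = y.1 ∨ G.Adj x.1 y.1) ∧ (x.2 = y.2 ∨ H.Adj x.2 y.2))) := by
  classical
  refine le_csInf values_nonempty ?_
  rintro t ⟨d, hd, M, hM, rfl⟩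
  have hdR : (0 : ℝ) < d := by exact_mod_cast hd
  obtain ⟨x, y, hxy, hS⟩ := rep_Sch M hM
  set c : ℕ := ⌈HF F V G * d⌉₊ with hc
  have hGn := HF_nonneg F V G
  have hHn := HF_nonneg F W H
  rcases Nat.eq_zero_or_pos c with h0 | hpos
  · have h1 : HF F V G * d ≤ 0 := by
      have := Nat.le_ceil (HF F V G * d)
      rw [← hc, h0] at this
      exact_mod_cast this
    have h2 : HF F V G = 0 := by
      rcases hGn.lt_or_eq with h3 | h3
      · have := mul_pos h3 hdR
        linarith
      · exact h3.symm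
    rw [h2, zero_mul]
    positivity
  · -- the layers
    have hlayer : ∀ w : W, ∃ (P : Matrix (Fin c) (V × Fin d) F) (Q : Matrix (V × Fin d) (Fin c) F),
        P * (Matrix.of (fun a b : V × Fin d => M ((a.1, w), a.2) ((b.1, w), b.2))) * Q = 1 := by
      intro w
      apply rank_cut
      have hrep : IsRep G d (Matrix.of (fun a b : V × Fin d => M ((a.1, w), a.2) ((b.1, w), b.2))) := by
        refine ⟨fun v i j => hM.diag (v, w) i j, fun u v i j huv hadj => ?_⟩
        refine hM.off (u, w) (v, w) i j (fun h' => huv (Prod.ext_iff.mp h').1) ?_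
        rw [SimpleGraph.fromRel_adj]
        rintro ⟨_, h1 | h1⟩
        · rcases h1.1 with h2 | h2
          · exact huv h2
          · exact hadj h2
        · rcases h1.1 with h2 | h2
          · exact huv h2.symm
          · exact hadj h2.symm
      have h3 := HF_le (⟨d, hd, _, hrep, rfl⟩ : ((Matrix.of (fun a b : V × Fin d =>
        M ((a.1, w), a.2) ((b.1, w), b.2))).rank : ℝ) / d ∈ haemersValues F G)
      rw [le_div_iff₀ hdR] at h3
      exact Nat.ceil_le.mpr h3
    choose P Q hPQ using hlayer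
    set A : W → Matrix (V × Fin d) (Fin M.rank) F := fun w => Matrix.of (fun a k => x (a.1, w) a.2 k) with hA
    set B : W → Matrix (Fin M.rank) (V × Fin d) F := fun w => Matrix.of (fun k a => y (a.1, w) k a.2) with hB
    have hAB : ∀ w z, A w * B z = Matrix.of (fun a b : V × Fin d => M ((a.1, w), a.2) ((b.1, z), b.2)) := by
      intro w z
      ext a b
      have h1 := congrFun (congrFun (hxy (a.1, w) (b.1, z)) a.2) b.2
      rw [Matrix.mul_apply] at h1
      rw [Matrix.mul_apply]
      exact h1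
    have hSch : Sch F H (Fin M.rank) (Fin c) (fun w => P w * A w) (fun w => B w * Q w) := by
      refine ⟨fun w => ?_, fun w z hwz hadj => ?_⟩
      · rw [Matrix.mul_assoc, ← Matrix.mul_assoc (A w), ← Matrix.mul_assoc (P w), hAB]
        exact hPQ w
      · have h1 : A w * B z = 0 := by
          rw [hAB]
          ext a b
          rw [Matrix.of_apply]
          refine hM.off (a.1, w) (b.1, z) a.2 b.2 (fun h' => hwz (Prod.ext_iff.mp h').2) ?_
          rw [SimpleGraph.fromRel_adj]
          rintro ⟨_, h1 | h1⟩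
          · rcases h1.2 with h2 | h2
            · exact hwz h2
            · exact hadj h2
          · rcases h1.2 with h2 | h2
            · exact hwz h2.symm
            · exact hadj h2.symm
        rw [Matrix.mul_assoc, ← Matrix.mul_assoc (A w), h1, Matrix.zero_mul, Matrix.mul_zero]
    obtain ⟨s, hs, hle⟩ := hSch.value (by rw [Fintype.card_fin]; exact hpos)
    rw [Fintype.card_fin, Fintype.card_fin] at hle
    have h4 := le_trans (HF_le hs) hle
    have hcR : (0 : ℝ) < c := by exact_mod_cast hpos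
    rw [le_div_iff₀ hcR] at h4
    have h5 : HF F V G * d ≤ c := Nat.le_ceil _
    rw [le_div_iff₀ hdR]
    have h6 := mul_le_mul_of_nonneg_right h5 hHn
    nlinarith

/-- from pairs of values to the infima -/
theorem inf_mul_le {F : Type u} [Field F] {V W : Type} [Fintype V] [Fintype W] {G : SimpleGraph V}
    {H : SimpleGraph W} (r : ℝ) (h : ∀ s ∈ haemersValues F G, ∀ t ∈ haemersValues F H, r ≤ s * t) :
    r ≤ HF F V G * HF F W H := by
  have h1 : ∀ s ∈ haemersValues F G, r ≤ s * HF F W H := by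
    intro s hs
    rcases (values_nonneg hs).lt_or_eq with h2 | h2
    · rw [mul_comm, ← div_le_iff₀ h2]
      refine le_csInf values_nonempty (fun t ht => ?_)
      rw [div_le_iff₀ h2, mul_comm]
      exact h s hs t ht
    · obtain ⟨t, ht⟩ := values_nonempty (F := F) (G := H)
      have := h s hs t ht
      rw [← h2] at this ⊢
      simpa using this
  rcases (HF_nonneg F W H).lt_or_eq with h2 | h2
  · rw [← div_le_iff₀ h2]
    refine le_csInf values_nonempty (fun s hs => ?_)
    rw [div_le_iff₀ h2]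
    exact h1 s hs
  · obtain ⟨s, hs⟩ := values_nonempty (F := F) (G := G)
    have := h1 s hs
    rw [← h2] at this ⊢
    simpa using this

theorem HF_mul_le (F : Type u) [Field F] (V W : Type) [Fintype V] [Fintype W] (G : SimpleGraph V)
    (H : SimpleGraph W) :
    HF F (V × W) (SimpleGraph.fromRel (fun x y : V × W =>
      (x.1 = y.1 ∨ G.Adj x.1 y.1) ∧ (x.2 = y.2 ∨ H.Adj x.2 y.2))) ≤ HF F V G * HF F W H := by
  classical
  apply inf_mul_le
  rintro s ⟨d, hd, M, hM, rfl⟩ t ⟨e, he, N, hN, rfl⟩
  obtain ⟨x, y, _, hS⟩ := rep_Sch M hM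
  obtain ⟨x', y', _, hS'⟩ := rep_Sch N hN
  obtain ⟨t, ht, hle⟩ := (hS.mul hS').value (by
    rw [Fintype.card_prod, Fintype.card_fin, Fintype.card_fin]
    exact Nat.mul_pos hd he)
  refine le_trans (HF_le ht) (le_trans hle (le_of_eq ?_))
  rw [Fintype.card_prod, Fintype.card_prod]
  simp only [Fintype.card_fin]
  push_cast
  rw [div_mul_div_comm]

/-- the disjoint union, upper bound -/
theorem HF_add_le (F : Type u) [Field F] (V W : Type) [Fintype V] [Fintype W] (G : SimpleGraph V)
    (H : SimpleGraph W) :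
    HF F (V ⊕ W) (SimpleGraph.fromRel (Sum.LiftRel G.Adj H.Adj)) ≤ HF F V G + HF F W H := by
  classical
  have key : ∀ s ∈ haemersValues F G, ∀ t ∈ haemersValues F H,
      HF F (V ⊕ W) (SimpleGraph.fromRel (Sum.LiftRel G.Adj H.Adj)) ≤ s + t := by
    rintro s ⟨d, hd, M, hM, rfl⟩ t ⟨e, he, N, hN, rfl⟩
    obtain ⟨x, y, _, hS⟩ := rep_Sch M hM
    obtain ⟨x', y', _, hS'⟩ := rep_Sch N hN
    obtain ⟨t, ht, hle⟩ := (hS.add hS').value (by
      rw [Fintype.card_prod, Fintype.card_fin, Fintype.card_fin]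
      exact Nat.mul_pos hd he)
    refine le_trans (HF_le ht) (le_trans hle (le_of_eq ?_))
    rw [Fintype.card_sum, Fintype.card_prod, Fintype.card_prod, Fintype.card_prod]
    simp only [Fintype.card_fin]
    push_cast
    have h1 : (d : ℝ) ≠ 0 := by
      have : d ≠ 0 := by omega
      exact_mod_cast this
    have h2 : (e : ℝ) ≠ 0 := by
      have : e ≠ 0 := by omega
      exact_mod_cast this
    field_simp
  have h1 : ∀ s ∈ haemersValues F G, HF F (V ⊕ W) (SimpleGraph.fromRel (Sum.LiftRel G.Adj H.Adj)) - s ≤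
      HF F W H := by
    intro s hs
    refine le_csInf values_nonempty (fun t ht => ?_)
    have := key s hs t ht
    linarith
  have h2 : HF F (V ⊕ W) (SimpleGraph.fromRel (Sum.LiftRel G.Adj H.Adj)) - HF F W H ≤ HF F V G := by
    refine le_csInf values_nonempty (fun s hs => ?_)
    have := h1 s hs
    linarith
  linarith

end Pool.Agent.helper67.KP
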