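import Pool.Agent.helper67.KP.Haem

/-!
# The fractional Haemers bound is a spectral point

The theorem of Bukh and Cox, in the form needed here.
-/

set_option autoImplicit false

namespace Pool.Agent.helper67.KP

open Finset Pool.Agent.helper67.KN

universe u

/-- factored representations -/
structure Sch (F : Type u) [Field F] {V : Type} (G : SimpleGraph V) (κ δ : Type) [Fintype κ] [Fintype δ]
    [DecidableEq δ] (x : V → Matrix δ κ F) (y : V → Matrix κ δ F) : Prop where
  one : ∀ v, x v * y v = 1
  zero : ∀ u v, u ≠ v → ¬ G.Adj u v → x u * y v = 0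

theorem Sch.value {F : Type u} [Field F] {V : Type} [Fintype V] {G : SimpleGraph V} {κ δ : Type} [Fintype κ]
    [Fintype δ] [DecidableEq δ] {x : V → Matrix δ κ F} {y : V → Matrix κ δ F} (h : Sch F G κ δ x y)
    (hδ : 1 ≤ Fintype.card δ) :
    ∃ t ∈ haemersValues F G, t ≤ (Fintype.card κ : ℝ) / Fintype.card δ := by
  classical
  set e : Fin (Fintype.card δ) ≃ δ := (Fintype.equivFin δ).symm with he
  set A : Matrix (V × Fin (Fintype.card δ)) κ F := Matrix.of (fun a k => x a.1 (e a.2) k) with hA
  set B : Matrix κ (V × Fin (Fintype.card δ)) F := Matrix.of (fun k a => y a.1 k (e a.2)) with hB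
  have hent : ∀ a b, (A * B) a b = (x a.1 * y b.1) (e a.2) (e b.2) := by
    intro a b
    rw [Matrix.mul_apply, Matrix.mul_apply]
    rfl
  have hrep : IsRep G (Fintype.card δ) (A * B) := by
    refine ⟨?_, ?_⟩
    · intro v i j
      rw [hent]
      simp only
      rw [h.one v, Matrix.one_apply]
      by_cases hij : i = j
      · subst hij
        simp
      · rw [if_neg hij, if_neg (fun h' => hij (e.injective h'))]
    · intro u v i j huv hadj
      rw [hent]
      simp only
      rw [h.zero u v huv hadj]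
      rfl
  refine ⟨_, ⟨Fintype.card δ, hδ, A * B, hrep, rfl⟩, ?_⟩
  have h1 : (A * B).rank ≤ Fintype.card κ :=
    le_trans (Matrix.rank_mul_le_left A B) (Matrix.rank_le_card_width A)
  have h2 : (0 : ℝ) < Fintype.card δ := by exact_mod_cast hδ
  rw [div_le_div_iff_of_pos_right h2]
  exact_mod_cast h1

theorem rep_Sch {F : Type u} [Field F] {V : Type} [Fintype V] {G : SimpleGraph V} {d : ℕ}
    (M : Matrix (V × Fin d) (V × Fin d) F) (hM : IsRep G d M) :
    ∃ (x : V → Matrix (Fin d) (Fin M.rank) F) (y : V → Matrix (Fin M.rank) (Fin d) F),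
      (∀ u v, x u * y v = Matrix.of (fun i j => M (u, i) (v, j))) ∧ Sch F G (Fin M.rank) (Fin d) x y := by
  classical
  set U := LinearMap.range M.mulVecLin with hU
  set b : Module.Basis (Fin M.rank) F U := Module.finBasis F U with hb
  have hcol : ∀ a : V × Fin d, M.mulVecLin (Pi.single a 1) ∈ U := fun a => LinearMap.mem_range_self _ _
  set x : V → Matrix (Fin d) (Fin M.rank) F := fun u => Matrix.of (fun i k => (b k : V × Fin d → F) (u, i)) with hx
  set y : V → Matrix (Fin M.rank) (Fin d) F :=
    fun v => Matrix.of (fun k j => b.repr ⟨M.mulVecLin (Pi.single (v, j) 1), hcol (v, j)⟩ k) with hy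
  have key : ∀ u v, x u * y v = Matrix.of (fun i j => M (u, i) (v, j)) := by
    intro u v
    ext i j
    rw [Matrix.mul_apply]
    simp only [hx, hy, Matrix.of_apply]
    have h1 := b.sum_repr ⟨M.mulVecLin (Pi.single (v, j) 1), hcol (v, j)⟩
    have h2 := congrArg (fun z : U => (z : V × Fin d → F) (u, i)) h1
    simp only at h2
    rw [Submodule.coe_sum, Finset.sum_apply] at h2
    have h3 : (M.mulVecLin (Pi.single (v, j) 1)) (u, i) = M (u, i) (v, j) := by
      rw [Matrix.mulVecLin_apply, Matrix.mulVec_single_one]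
      rfl
    rw [h3] at h2
    rw [← h2]
    refine Finset.sum_congr rfl (fun k _ => ?_)
    rw [mul_comm]
    rfl
  refine ⟨x, y, key, ⟨?_, ?_⟩⟩
  · intro v
    rw [key]
    ext i j
    rw [Matrix.of_apply, hM.diag, Matrix.one_apply]
  · intro u v huv hadj
    rw [key]
    ext i j
    rw [Matrix.of_apply, hM.off u v i j huv hadj]
    rfl

theorem values_nonneg {F : Type u} [Field F] {V : Type} [Fintype V] {G : SimpleGraph V} {t : ℝ}
    (ht : t ∈ haemersValues F G) : 0 ≤ t := by
  obtain ⟨d, _, M, _, rfl⟩ := ht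
  positivity

theorem values_bdd {F : Type u} [Field F] {V : Type} [Fintype V] {G : SimpleGraph V} :
    BddBelow (haemersValues F G) := ⟨0, fun _ ht => values_nonneg ht⟩

theorem values_nonempty {F : Type u} [Field F] {V : Type} [Fintype V] {G : SimpleGraph V} :
    (haemersValues F G).Nonempty := by
  classical
  refine ⟨_, 1, le_rfl, 1, ⟨?_, ?_⟩, rfl⟩
  · intro v i j
    rw [Matrix.one_apply]
    by_cases h : i = j
    · subst h
      simp
    · rw [if_neg h, if_neg]
      intro h'
      exact h (Prod.ext_iff.mp h').2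
  · intro u v i j huv _
    rw [Matrix.one_apply, if_neg]
    intro h'
    exact huv (Prod.ext_iff.mp h').1

theorem HF_le {F : Type u} [Field F] {V : Type} [Fintype V] {G : SimpleGraph V} {t : ℝ}
    (ht : t ∈ haemersValues F G) : HF F V G ≤ t := csInf_le values_bdd ht

theorem HF_nonneg (F : Type u) [Field F] (V : Type) [Fintype V] (G : SimpleGraph V) : 0 ≤ HF F V G :=
  Real.sInf_nonneg (fun _ ht => values_nonneg ht)

theorem HF_mono (F : Type u) [Field F] (V W : Type) [Fintype V] [Fintype W] (G : SimpleGraph V)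
    (H : SimpleGraph W) (hf : Nonempty (Gᶜ →g Hᶜ)) : HF F V G ≤ HF F W H := by
  classical
  obtain ⟨f⟩ := hf
  refine le_csInf values_nonempty ?_
  rintro t ⟨d, hd, M, hM, rfl⟩
  obtain ⟨x, y, _, hS⟩ := rep_Sch M hM
  have h1 : Sch F G (Fin M.rank) (Fin d) (fun v => x (f v)) (fun v => y (f v)) := by
    refine ⟨fun v => hS.one (f v), fun u v huv hadj => ?_⟩
    have h2 : Gᶜ.Adj u v := by
      rw [SimpleGraph.compl_adj]
      exact ⟨huv, hadj⟩
    have h3 := f.map_adj h2
    rw [SimpleGraph.compl_adj] at h3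
    exact hS.zero (f u) (f v) h3.1 h3.2
  obtain ⟨t, ht, hle⟩ := h1.value (by rw [Fintype.card_fin]; exact hd)
  rw [Fintype.card_fin, Fintype.card_fin] at hle
  exact le_trans (HF_le ht) hle

theorem HF_one (F : Type u) [Field F] : HF F (Fin 1) (⊥ : SimpleGraph (Fin 1)) = 1 := by
  classical
  have hval : ∀ t ∈ haemersValues F (⊥ : SimpleGraph (Fin 1)), t = 1 := by
    rintro t ⟨d, hd, M, hM, rfl⟩
    have h1 : M = 1 := by
      ext a b
      obtain ⟨u, i⟩ := a
      obtain ⟨v, j⟩ := b
      have huv : u = v := Subsingleton.elim u v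
      subst huv
      rw [hM.diag, Matrix.one_apply]
      by_cases h : i = j
      · subst h
        simp
      · rw [if_neg h, if_neg]
        intro h'
        exact h (Prod.ext_iff.mp h').2
    rw [h1, Matrix.rank_one, Fintype.card_prod, Fintype.card_fin, Fintype.card_fin, one_mul]
    have : (d : ℝ) ≠ 0 := by
      have : d ≠ 0 := by omega
      exact_mod_cast this
    exact div_self this
  obtain ⟨t, ht⟩ := values_nonempty (F := F) (G := (⊥ : SimpleGraph (Fin 1)))
  have h1 := hval t ht
  subst h1
  exact le_antisymm (HF_le ht) (le_csInf values_nonempty (fun s hs => (hval s hs).ge))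

end Pool.Agent.helper67.KP
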